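import Pool.Agent.Q215.MB.Stm

/-!
# Copies of the basic structure in all intervals
-/

set_option autoImplicit false

open Set Topology Filter

namespace Pool.Agent.Q94.MB

open Pool.Agent.Q215.MB

/-- the affine map with coefficients `p` -/
def af (p : ℝ × ℝ) (x : ℝ) : ℝ := p.1 * x + p.2

theorem af_cont (p : ℝ × ℝ) : Continuous (af p) := by unfold af; fun_prop

theorem af_mono {p : ℝ × ℝ} (h : 0 < p.1) : StrictMono (af p) := by
  intro x y hxy
  unfold af
  have := mul_lt_mul_of_pos_left hxy h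
  linarith

theorem dense_compl {C : Set ℝ} (hint : interior C = ∅) {p : ℝ × ℝ} (hp : 0 < p.1) :
    Dense (af p '' C)ᶜ := by
  apply dense_of_exists_between
  intro s t hst
  have h1 : ¬ Ioo ((s - p.2) / p.1) ((t - p.2) / p.1) ⊆ C := by
    intro h
    have h2 := interior_maximal h isOpen_Ioo
    rw [hint] at h2
    have h3 : (s - p.2) / p.1 < (t - p.2) / p.1 := div_lt_div_of_pos_right (by linarith) hp
    obtain ⟨z, hz⟩ := exists_between h3
    exact h2 (show z ∈ Ioo _ _ from hz)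
  rw [Set.not_subset] at h1
  obtain ⟨z, hz, hzC⟩ := h1
  refine ⟨af p z, ?_, ?_, ?_⟩
  · rintro ⟨w, hw, e⟩
    exact hzC ((af_mono hp).injective e ▸ hw)
  · have := (div_lt_iff₀ hp).1 hz.1
    unfold af
    linarith
  · have := (lt_div_iff₀ hp).1 hz.2
    unfold af
    linarith

theorem step {C : Set ℝ} (hC : IsCompact C) (hsub : C ⊆ Ioo (-1) 1) (hint : interior C = ∅)
    (u v : ℝ) (huv : u < v) (s : Finset (ℝ × ℝ)) :
    ∃ y : ℝ × ℝ, 0 < y.1 ∧ af y '' C ⊆ Ioo u v ∧ ∀ x ∈ s, 0 < x.1 → Disjoint (af x '' C) (af y '' C) := by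
  have key : ∀ s : Finset (ℝ × ℝ), IsOpen {z : ℝ | ∀ x ∈ s, 0 < x.1 → z ∉ af x '' C} ∧
      Dense {z : ℝ | ∀ x ∈ s, 0 < x.1 → z ∉ af x '' C} := by
    intro s
    induction s using Finset.induction_on with
    | empty => simp
    | insert p s hps ih =>
      have e : {z : ℝ | ∀ x ∈ insert p s, 0 < x.1 → z ∉ af x '' C} =
          {z : ℝ | 0 < p.1 → z ∉ af p '' C} ∩ {z : ℝ | ∀ x ∈ s, 0 < x.1 → z ∉ af x '' C} := by
        ext z
        simp only [Finset.mem_insert, Set.mem_ofPred_eq, Set.mem_inter_iff]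
        constructor
        · intro h
          exact ⟨h p (Or.inl rfl), fun x hx => h x (Or.inr hx)⟩
        · rintro ⟨h1, h2⟩ x (rfl | hx)
          · exact h1
          · exact h2 x hx
      have hpo : IsOpen {z : ℝ | 0 < p.1 → z ∉ af p '' C} ∧ Dense {z : ℝ | 0 < p.1 → z ∉ af p '' C} := by
        by_cases hp : 0 < p.1
        · have e1 : {z : ℝ | 0 < p.1 → z ∉ af p '' C} = (af p '' C)ᶜ := by
            ext z
            simp [hp]
          rw [e1]
          exact ⟨(hC.image (af_cont p)).isClosed.isOpen_compl, dense_compl hint hp⟩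
        · have e1 : {z : ℝ | 0 < p.1 → z ∉ af p '' C} = Set.univ := by
            ext z
            simp [hp]
          rw [e1]
          exact ⟨isOpen_univ, dense_univ⟩
      rw [e]
      exact ⟨hpo.1.inter ih.1, hpo.2.inter_of_isOpen_left ih.2 hpo.1⟩
  obtain ⟨ho, hd⟩ := key s
  obtain ⟨c, hc, hc1, hc2⟩ := hd.exists_between huv
  have hopen : IsOpen (Ioo u v ∩ {z : ℝ | ∀ x ∈ s, 0 < x.1 → z ∉ af x '' C}) := isOpen_Ioo.inter ho
  obtain ⟨r, hr, hball⟩ := Metric.isOpen_iff.1 hopen c ⟨⟨hc1, hc2⟩, hc⟩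
  rw [Real.ball_eq_Ioo] at hball
  have him : af (r, c) '' C ⊆ Ioo (c - r) (c + r) := by
    rintro z ⟨w, hw, rfl⟩
    have := hsub hw
    unfold af
    constructor
    · have := mul_lt_mul_of_pos_left this.1 hr
      simp only
      linarith
    · have := mul_lt_mul_of_pos_left this.2 hr
      simp only
      linarith
  refine ⟨(r, c), hr, fun z hz => (hball (him hz)).1, fun x hx hx1 => ?_⟩
  rw [Set.disjoint_left]
  intro z hz hz2
  exact (hball (him hz2)).2 x hx hx1 hz

theorem intervals : ∃ e : ℕ → ℝ × ℝ, (∀ m, (e m).1 < (e m).2) ∧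
    ∀ u v : ℝ, u < v → ∃ m, Ioo (e m).1 (e m).2 ⊆ Ioo u v := by
  have : Nonempty {p : ℚ × ℚ // p.1 < p.2} := ⟨⟨(0, 1), by norm_num⟩⟩
  obtain ⟨g, hg⟩ := exists_surjective_nat {p : ℚ × ℚ // p.1 < p.2}
  refine ⟨fun m => (((g m).1.1 : ℝ), ((g m).1.2 : ℝ)), fun m => Rat.cast_lt.2 (g m).2, ?_⟩
  intro u v huv
  obtain ⟨q, hq1, hq2⟩ := exists_rat_btwn huv
  obtain ⟨r, hr1, hr2⟩ := exists_rat_btwn hq2
  obtain ⟨m, hm⟩ := hg ⟨(q, r), by exact_mod_cast hr1⟩
  refine ⟨m, ?_⟩
  simp only [hm]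
  exact Ioo_subset_Ioo hq1.le hr2.le

theorem family {C : Set ℝ} (hC : IsCompact C) (hsub : C ⊆ Ioo (-1) 1) (hint : interior C = ∅) :
    ∃ f : ℕ → ℝ × ℝ, (∀ m, 0 < (f m).1) ∧ (∀ k m, k ≠ m → Disjoint (af (f k) '' C) (af (f m) '' C)) ∧
      ∀ u v : ℝ, u < v → ∃ m, af (f m) '' C ⊆ Ioo u v := by
  obtain ⟨e, he, he2⟩ := intervals
  have h := fun (n : ℕ) (s : Finset (ℝ × ℝ)) => step hC hsub hint (e n).1 (e n).2 (he n) s
  choose g hg1 hg2 hg3 using h
  let s : ℕ → Finset (ℝ × ℝ) := fun n => Nat.rec ∅ (fun n t => insert (g n t) t) n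
  have hs : ∀ n, s (n + 1) = insert (g n (s n)) (s n) := fun n => rfl
  have hmem : ∀ n k, k < n → g k (s k) ∈ s n := by
    intro n
    induction n with
    | zero => intro k hk; omega
    | succ n ih =>
      intro k hk
      rw [hs]
      rcases Nat.lt_succ_iff_lt_or_eq.1 hk with h | rfl
      · exact Finset.mem_insert_of_mem (ih k h)
      · exact Finset.mem_insert_self _ _
  refine ⟨fun n => g n (s n), fun m => hg1 _ _, ?_, ?_⟩
  · intro k m hkm
    rcases lt_or_gt_of_ne hkm with h | h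
    · exact hg3 m (s m) _ (hmem m k h) (hg1 _ _)
    · exact (hg3 k (s k) _ (hmem k m h) (hg1 _ _)).symm
  · intro u v huv
    obtain ⟨m, hm⟩ := he2 u v huv
    exact ⟨m, (hg2 m (s m)).trans hm⟩

open Classical in
/-- the level function with copies of `l0` -/
noncomputable def lev (C : Set ℝ) (l0 : ℝ → ℕ) (f : ℕ → ℝ × ℝ) (x : ℝ) : ℕ :=
  if h : ∃ p : ℕ × ℝ, p.2 ∈ C ∧ af (f p.1) p.2 = x then l0 h.choose.2 else 0

theorem lev_af {C : Set ℝ} (l0 : ℝ → ℕ) {f : ℕ → ℝ × ℝ} (hf : ∀ m, 0 < (f m).1)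
    (hd : ∀ k m, k ≠ m → Disjoint (af (f k) '' C) (af (f m) '' C)) (m : ℕ) {y : ℝ} (hy : y ∈ C) :
    lev C l0 f (af (f m) y) = l0 y := by
  have h : ∃ p : ℕ × ℝ, p.2 ∈ C ∧ af (f p.1) p.2 = af (f m) y := ⟨(m, y), hy, rfl⟩
  unfold lev
  rw [dif_pos h]
  obtain ⟨h1, h2⟩ := h.choose_spec
  have hm : h.choose.1 = m := by
    by_contra hne
    exact Set.disjoint_left.1 (hd _ _ hne) ⟨_, h1, h2⟩ ⟨y, hy, rfl⟩
  rw [hm] at h2
  rw [(af_mono (hf m)).injective h2]

theorem lev_zero {C : Set ℝ} (l0 : ℝ → ℕ) {f : ℕ → ℝ × ℝ} {x : ℝ} (hx : ∀ m, x ∉ af (f m) '' C) :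
    lev C l0 f x = 0 := by
  unfold lev
  rw [dif_neg]
  rintro ⟨p, h1, h2⟩
  exact hx p.1 ⟨p.2, h1, h2⟩

theorem t_Tb : S_Tb := by
  intro htr hTa j
  obtain ⟨C, l0, hC, hsub, hint, hl1, hl2, hl3, hFS, A, hA1, hA2, hA3⟩ := hTa j
  obtain ⟨f, hf, hd, hint2⟩ := family hC hsub hint
  have hlev := fun (m : ℕ) {y : ℝ} (hy : y ∈ C) => lev_af l0 hf hd m hy
  refine ⟨lev C l0 f, ?_, ?_, ?_, ?_⟩
  · intro x
    by_cases h : ∃ m, x ∈ af (f m) '' C
    · obtain ⟨m, y, hy, rfl⟩ := h
      rw [hlev m hy]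
      exact hl3 y
    · push Not at h
      rw [lev_zero l0 h]
      omega
  · have h1 : Dense (⋂ m, (af (f m) '' C)ᶜ) :=
      dense_iInter_of_isOpen_nat (fun m => (hC.image (af_cont (f m))).isClosed.isOpen_compl)
        (fun m => dense_compl hint (hf m))
    refine h1.mono ?_
    intro x hx
    rw [Set.mem_iInter] at hx
    exact lev_zero l0 hx
  · intro k
    rcases Nat.eq_zero_or_pos k with rfl | hk
    · refine ⟨fun _ => Set.univ, fun _ => isClosed_univ, ?_⟩
      ext x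
      simp
    · obtain ⟨H, hH1, hH2⟩ := hFS k
      have hHC : ∀ m, H m ⊆ C := by
        intro m y hy
        have : y ∈ {x | k ≤ l0 x} := by
          rw [← hH2]
          exact Set.mem_iUnion.2 ⟨m, hy⟩
        by_contra hyC
        have h0 := hl2 y hyC
        have : k ≤ l0 y := this
        omega
      refine ⟨fun n => af (f n.unpair.1) '' H n.unpair.2, fun n => ?_, ?_⟩
      · exact ((hC.of_isClosed_subset (hH1 _) (hHC _)).image (af_cont _)).isClosed
      · ext x
        rw [Set.mem_iUnion]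
        constructor
        · rintro ⟨n, y, hy, rfl⟩
          show k ≤ lev C l0 f _
          rw [hlev _ (hHC _ hy)]
          have : y ∈ {x | k ≤ l0 x} := by
            rw [← hH2]
            exact Set.mem_iUnion.2 ⟨_, hy⟩
          exact this
        · intro hx
          have hx' : k ≤ lev C l0 f x := hx
          by_cases h : ∃ m, x ∈ af (f m) '' C
          · obtain ⟨m, y, hy, rfl⟩ := h
            rw [hlev m hy] at hx'
            have : y ∈ ⋃ m, H m := by
              rw [hH2]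
              exact hx'
            obtain ⟨m', hm'⟩ := Set.mem_iUnion.1 this
            refine ⟨Nat.pair m m', y, ?_, ?_⟩
            · rw [Nat.unpair_pair]
              exact hm'
            · rw [Nat.unpair_pair]
          · push Not at h
            rw [lev_zero l0 h] at hx'
            omega
  · intro u v huv
    obtain ⟨m, hm⟩ := hint2 u v huv
    have hinj : Function.Injective (Set.image (af (f m))) := (af_mono (hf m)).injective.image_injective
    refine ⟨(Set.image (af (f m))) '' A, ?_, ?_, ?_⟩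
    · intro hcount
      exact hA1 (Set.countable_of_injective_of_countable_image hinj.injOn hcount)
    · rintro _ ⟨P, hP, rfl⟩ _ ⟨Q, hQ, rfl⟩ hne
      have hPQ : P ≠ Q := fun h => hne (by rw [h])
      have := hA2 hP hQ hPQ
      show Disjoint (af (f m) '' P) (af (f m) '' Q)
      exact (Set.disjoint_image_iff (af_mono (hf m)).injective).2 this
    · rintro _ ⟨P, hP, rfl⟩
      obtain ⟨hPC, hPc⟩ := hA3 P hP
      refine ⟨(Set.image_mono hPC).trans hm, ?_⟩
      exact htr l0 _ (af (f m)) j 1 P (Or.inl ((af_mono (hf m)).strictMonoOn P)) (af_cont _).continuousOn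
        (fun x hx => hlev m (hPC hx)) hPc

end Pool.Agent.Q94.MB
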